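import Pool.Agent.W235.PR.Base
import Pool.Agent.H533R3.SL.Unif

/-!
Projective varieties: entire curves of exponential type, rational curves, sparse rational points
and linear recurrences of rational points.
-/

set_option autoImplicit false

namespace Pool.Agent.W235.PR

open Filter MvPolynomial IsDedekindDomain Pool.Agent.H159R3.NV
open Pool.Agent.H159R3.Exp (Laur ExpType ExpPoly integral_pts Laur.common)
open Pool.Agent.H458.Sp Pool.Agent.H533R3.SL
open Pool.Agent.W235.RM (IsLinRec IsLinRec.sum IsLinRec.geom interp finite_zeros_base exists_den)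
open scoped NumberField Topology

section defs

variable {K : Type} [Field K] {ι κ : Type} {n : ℕ}

/-- A holomorphic map from the complex line to projective space: it has holomorphic homogeneous
coordinates without common zeros near every point. -/
def IsHolo (f : ℂ → Projectivization ℂ (Fin (n + 1) → ℂ)) : Prop :=
  ∀ z₀, ∃ x : ℂ → Fin (n + 1) → ℂ, AnalyticAt ℂ x z₀ ∧
    ∀ᶠ z in 𝓝 z₀, ∃ h : x z ≠ 0, f z = Projectivization.mk ℂ (x z) h

/-- Condition (i): every entire curve in `V` lies in `V'`. -/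
def EntireCurvesIn (σ : K →+* ℂ) (F : ι → MvPolynomial (Fin (n + 1)) (𝓞 K))
    (G : κ → MvPolynomial (Fin (n + 1)) (𝓞 K)) : Prop :=
  ∀ f : ℂ → Projectivization ℂ (Fin (n + 1) → ℂ), IsHolo f →
    (∀ z i, eval₂ (σ.comp (algebraMap (𝓞 K) K)) (f z).rep (F i) = 0) → (∃ z w, f z ≠ f w) →
    ∀ z l, eval₂ (σ.comp (algebraMap (𝓞 K) K)) (f z).rep (G l) = 0

/-- Condition (ii): `V` has only finitely many rational points outside `V'`, over every number
field which contains `K`. -/
def RationalFinite (F : ι → MvPolynomial (Fin (n + 1)) (𝓞 K))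
    (G : κ → MvPolynomial (Fin (n + 1)) (𝓞 K)) : Prop :=
  ∀ (L : Type) [Field L] [NumberField L] [Algebra K L], (Pts F G L).Finite

/-- Every nonconstant map from the projective line to `V`, given by polynomials, lies in `V'`. -/
def RatCurvesIn (σ : K →+* ℂ) (F : ι → MvPolynomial (Fin (n + 1)) (𝓞 K))
    (G : κ → MvPolynomial (Fin (n + 1)) (𝓞 K)) : Prop :=
  ∀ p : Fin (n + 1) → Polynomial ℂ,
    (∀ t i, eval₂ (σ.comp (algebraMap (𝓞 K) K)) (fun j => (p j).eval t) (F i) = 0) →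
    (∃ t s i j, (p i).eval t * (p j).eval s ≠ (p j).eval t * (p i).eval s) →
    ∀ t l, eval₂ (σ.comp (algebraMap (𝓞 K) K)) (fun j => (p j).eval t) (G l) = 0

/-- The points of `V` outside `V'` over `L` with homogeneous coordinates which are `r`-sparse in
base `b` with digits of house at most `B`. -/
def sparsePts (F : ι → MvPolynomial (Fin (n + 1)) (𝓞 K))
    (G : κ → MvPolynomial (Fin (n + 1)) (𝓞 K)) (L : Type) [Field L] [NumberField L] [Algebra K L]
    (b r : ℕ) (B : ℝ) : Set (Projectivization L (Fin (n + 1) → L)) :=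
  {P | P ∈ Pts F G L ∧ ∃ (x : Fin (n + 1) → L) (h : x ≠ 0), P = Projectivization.mk L x h ∧
    SparseAff b r B x}

/-- For every `b`, `r`, `B`, only finitely many points of `V` outside `V'` are `r`-sparse in
base `b` with digits of house at most `B`. -/
def SparseFinite (F : ι → MvPolynomial (Fin (n + 1)) (𝓞 K))
    (G : κ → MvPolynomial (Fin (n + 1)) (𝓞 K)) : Prop :=
  ∀ (L : Type) [Field L] [NumberField L] [Algebra K L] (b r : ℕ) (B : ℝ), 2 ≤ b →
    (sparsePts F G L b r B).Finite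

/-- The same for all bases together. -/
def SparseFiniteAll (F : ι → MvPolynomial (Fin (n + 1)) (𝓞 K))
    (G : κ → MvPolynomial (Fin (n + 1)) (𝓞 K)) : Prop :=
  ∀ (L : Type) [Field L] [NumberField L] [Algebra K L] (r : ℕ) (B : ℝ),
    {P | ∃ b, 2 ≤ b ∧ P ∈ sparsePts F G L b r B}.Finite

/-- the explicit bound -/
noncomputable def bound (d : ℕ) (A : ℝ) (r : ℕ) (B : ℝ) : ℝ :=
  Real.exp ((8 * d * (6 + 8 * d + 4 * Real.log A)) ^ r *
    (1 + Real.log B + Real.log (A * (r * B) ^ d)))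

/-- The sparse points of `V` outside `V'` have integral homogeneous coordinates of house at
most `bound d A r B`, for any base. -/
def SparseBounded [NumberField K] (F : ι → MvPolynomial (Fin (n + 1)) (𝓞 K))
    (G : κ → MvPolynomial (Fin (n + 1)) (𝓞 K)) : Prop :=
  ∀ (d : ℕ) (A : ℝ), 1 ≤ d → 1 ≤ A →
    (∀ i, (∃ e, e ≤ d ∧ (F i).IsHomogeneous e) ∧ nrm (F i) ≤ A) →
    ∀ (L : Type) [Field L] [NumberField L] [Algebra K L] (b r : ℕ) (B : ℝ), 2 ≤ b → 1 ≤ B →
      sparsePts F G L b r B ⊆ smallPoints L n (bound d A r B)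

/-- Every sequence of points of `V` over a number field, with homogeneous coordinates which are
linear recurrence sequences, has only finitely many different terms outside `V'`. -/
def RecurrenceFinite (F : ι → MvPolynomial (Fin (n + 1)) (𝓞 K))
    (G : κ → MvPolynomial (Fin (n + 1)) (𝓞 K)) : Prop :=
  ∀ (L : Type) [Field L] [NumberField L] [Algebra K L] (x : ℕ → Fin (n + 1) → L),
    (∀ j, IsLinRec fun k => x k j) →
    (∀ k i, eval₂ ((algebraMap K L).comp (algebraMap (𝓞 K) K)) (x k) (F i) = 0) →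
    {P | P ∈ Pts F G L ∧ ∃ (k : ℕ) (h : x k ≠ 0), P = Projectivization.mk L (x k) h}.Finite

end defs

section proofs

variable {K : Type} [Field K] [NumberField K] {ι κ : Type} {n : ℕ}
  (σ : K →+* ℂ) (F : ι → MvPolynomial (Fin (n + 1)) (𝓞 K))
  (G : κ → MvPolynomial (Fin (n + 1)) (𝓞 K))

omit [NumberField K] in
theorem mem_pts (hF : ∀ i, ∃ e, (F i).IsHomogeneous e) (hG : ∀ l, ∃ e, (G l).IsHomogeneous e)
    (L : Type) [Field L] [Algebra K L] (x : Fin (n + 1) → L) (hx : x ≠ 0) :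
    Projectivization.mk L x hx ∈ Pts F G L ↔
      (∀ i, eval₂ ((algebraMap K L).comp (algebraMap (𝓞 K) K)) x (F i) = 0) ∧
      ∃ l, eval₂ ((algebraMap K L).comp (algebraMap (𝓞 K) K)) x (G l) ≠ 0 := by
  unfold Pts
  rw [Set.mem_ofPred_eq]
  refine and_congr (forall_congr' fun i => ?_) (exists_congr fun l => ?_)
  · obtain ⟨e, he⟩ := hF i
    exact rep_zero_iff _ he x hx
  · obtain ⟨e, he⟩ := hG l
    exact (rep_zero_iff _ he x hx).not

omit [NumberField K] in
theorem exp_of_rat (h : ¬ RatCurvesIn σ F G) : ¬ ExpCurvesIn σ F G := by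
  unfold RatCurvesIn at h
  push Not at h
  obtain ⟨p, hpF, ⟨t, s, i, j, hne⟩, u, l, hl⟩ := h
  intro hcon
  have hd : Differentiable ℂ fun z => (fun j => (p j).eval z : Fin (n + 1) → ℂ) := by
    rw [differentiable_pi]
    intro j
    exact (p j).differentiable
  have h1 := hcon (fun z j => (p j).eval z) ⟨hd, fun ζ => ζ, differentiable_id,
    ⟨0, 1, zero_ne_one⟩, 0, Fin.elim0, fun j => Polynomial.aeval (X 0) (p j), fun i => i.elim0,
    fun z j => by
      rw [Pool.Agent.W235.RM.eval_aeval_X']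
      rfl⟩
    hpF ⟨t, s, i, j, hne⟩ u l
  exact hl h1

theorem not_rat_of_hasCurve (hF : ∀ i, ∃ e, (F i).IsHomogeneous e) (h : HasCurve F G) :
    ¬ RatCurvesIn σ F G := by
  classical
  obtain ⟨L, _, _, _, v, hv, hvF, ⟨l, hl⟩, k1, i1, j1, hk1⟩ := h
  let _ : Algebra K ℂ := σ.toAlgebra
  have : Algebra.IsAlgebraic K L := by
    have := NumberField.to_finiteDimensional (K := L)
    have : IsScalarTower ℚ K L := by infer_instance
    have : FiniteDimensional K L := FiniteDimensional.right ℚ K L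
    infer_instance
  let τ : L →ₐ[K] ℂ := IsAlgClosed.lift
  have hτi : Function.Injective τ := (τ : L →+* ℂ).injective
  have hτ : ∀ (x : Fin (n + 1) → L) (Q : MvPolynomial (Fin (n + 1)) (𝓞 K)),
      τ (eval₂ ((algebraMap K L).comp (algebraMap (𝓞 K) K)) x Q) =
        eval₂ (σ.comp (algebraMap (𝓞 K) K)) (fun j => τ (x j)) Q := by
    intro x Q
    have h1 : (τ : L →+* ℂ).comp ((algebraMap K L).comp (algebraMap (𝓞 K) K)) =
        σ.comp (algebraMap (𝓞 K) K) := by
      ext a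
      exact τ.commutes _
    have h2 := MvPolynomial.hom_eval₂ Q ((algebraMap K L).comp (algebraMap (𝓞 K) K))
      (τ : L →+* ℂ) x
    rw [h1] at h2
    exact h2
  obtain ⟨M, Q, hQ⟩ := Laur.common v hv
  set ψ := (algebraMap K L).comp (algebraMap (𝓞 K) K) with hψ
  have hQ' : ∀ t : L, t ≠ 0 → (fun j => (Q j).eval t) = fun j => t ^ M * v t j := by
    intro t ht
    funext j
    rw [hQ t ht j, mul_div_cancel₀ _ (pow_ne_zero _ ht)]
  have hQF : ∀ i (t : L), t ≠ 0 → eval₂ ψ (fun j => (Q j).eval t) (F i) = 0 := by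
    intro i t ht
    obtain ⟨e, he⟩ := hF i
    rw [hQ' t ht, eval₂_smul ψ he, hvF i t ht, mul_zero]
  have hpt : ∀ (t : L) j, ((Q j).map (τ : L →+* ℂ)).eval (τ t) = τ ((Q j).eval t) := by
    intro t j
    exact Polynomial.eval_map_apply (τ : L →+* ℂ) t
  have hpt' : ∀ t : L, (fun j => ((Q j).map (τ : L →+* ℂ)).eval (τ t)) =
      fun j => τ ((Q j).eval t) := fun t => funext (hpt t)
  -- vanishing for all parameters
  have hall : ∀ (t : ℂ) i, eval₂ (σ.comp (algebraMap (𝓞 K) K))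
      (fun j => ((Q j).map (τ : L →+* ℂ)).eval t) (F i) = 0 := by
    intro t i
    -- the polynomial in `t`
    let R : Polynomial ℂ := eval₂ (Polynomial.C.comp (σ.comp (algebraMap (𝓞 K) K)))
      (fun j => (Q j).map (τ : L →+* ℂ)) (F i)
    have hR : ∀ s : ℂ, R.eval s = eval₂ (σ.comp (algebraMap (𝓞 K) K))
        (fun j => ((Q j).map (τ : L →+* ℂ)).eval s) (F i) := by
      intro s
      have h1 := MvPolynomial.hom_eval₂ (F i) (Polynomial.C.comp (σ.comp (algebraMap (𝓞 K) K)))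
        (Polynomial.evalRingHom s) (fun j => (Q j).map (τ : L →+* ℂ))
      have h2 : (Polynomial.evalRingHom s).comp
          (Polynomial.C.comp (σ.comp (algebraMap (𝓞 K) K))) = σ.comp (algebraMap (𝓞 K) K) := by
        refine RingHom.ext fun a => ?_
        simp
      rw [h2] at h1
      exact h1
    rw [← hR]
    suffices hR0 : R = 0 by
      rw [hR0, Polynomial.eval_zero]
    by_contra hne
    have h2 := Polynomial.finite_setOfPred_isRoot hne
    have h3 : Function.Injective fun n : ℕ => (2 : ℂ) ^ n := by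
      intro a b hab
      have h5 : ((2 ^ a : ℕ) : ℂ) = ((2 ^ b : ℕ) : ℂ) := by
        push_cast
        exact hab
      exact Nat.pow_right_injective (le_refl 2) (Nat.cast_injective h5)
    apply Set.infinite_range_of_injective h3
    refine h2.subset ?_
    rintro _ ⟨m, rfl⟩
    show R.eval ((2 : ℂ) ^ m) = 0
    have h4 : ((2 : ℂ) ^ m) = τ ((2 : L) ^ m) := by
      rw [map_pow, map_ofNat]
    rw [hR, h4, hpt', ← hτ, hQF i _ (pow_ne_zero _ two_ne_zero), map_zero]
  intro hcon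
  have h1 := hcon (fun j => (Q j).map (τ : L →+* ℂ)) hall ⟨τ ((2 : L) ^ k1), τ 1, i1, j1, by
    rw [hpt, hpt, hpt, hpt, ← map_mul, ← map_mul]
    intro heq
    have h5 := hτi heq
    apply hk1
    have h6 := hQ' _ (pow_ne_zero k1 (two_ne_zero : (2 : L) ≠ 0))
    have h7 := hQ' 1 one_ne_zero
    have h8 : ∀ j, (Q j).eval ((2 : L) ^ k1) = ((2 : L) ^ k1) ^ M * v (2 ^ k1) j :=
      fun j => congrFun h6 j
    have h9 : ∀ j, (Q j).eval (1 : L) = (1 : L) ^ M * v 1 j := fun j => congrFun h7 j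
    rw [h8, h8, h9, h9, one_pow, one_mul, one_mul, mul_assoc, mul_assoc] at h5
    exact mul_left_cancel₀ (pow_ne_zero _ (pow_ne_zero _ two_ne_zero)) h5⟩ (τ 1) l
  rw [hpt', ← hτ, hQ' 1 one_ne_zero] at h1
  simp only [one_pow, one_mul] at h1
  exact hl ((map_eq_zero_iff (τ : L →+* ℂ) hτi).1 h1)

omit [NumberField K] in
/-- infinitely many points on the curve -/
theorem infinite_points (hF : ∀ i, ∃ e, (F i).IsHomogeneous e)
    (hG : ∀ l, ∃ e, (G l).IsHomogeneous e)
    (L : Type) [Field L] [NumberField L] [Algebra K L] (v : L → Fin (n + 1) → L)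
    (hv : ∀ j, Laur fun t => v t j)
    (hvF : ∀ i t, t ≠ 0 → eval₂ ((algebraMap K L).comp (algebraMap (𝓞 K) K)) (v t) (F i) = 0)
    (hvG : ∃ l, eval₂ ((algebraMap K L).comp (algebraMap (𝓞 K) K)) (v 1) (G l) ≠ 0)
    (hne : ∃ (k : ℕ) (i j : Fin (n + 1)), v (2 ^ k) i * v 1 j ≠ v (2 ^ k) j * v 1 i)
    (b : ℕ) (hb : 2 ≤ b) :
    {P | P ∈ Pts F G L ∧ ∃ (k : ℕ) (h : v ((b : L) ^ k) ≠ 0),
      P = Projectivization.mk L (v ((b : L) ^ k)) h}.Infinite := by
  set ψ := (algebraMap K L).comp (algebraMap (𝓞 K) K)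
  obtain ⟨l, hl⟩ := hvG
  obtain ⟨k1, i1, j1, hk1⟩ := hne
  have hb0 : (b : L) ≠ 0 := by
    have : b ≠ 0 := by omega
    exact_mod_cast this
  have h1 : {k : ℕ | eval₂ ψ (v ((b : L) ^ k)) (G l) = 0}.Finite :=
    finite_zeros_base (Laur.eval₂ ψ v hv (G l)) b hb ⟨1, one_ne_zero, hl⟩
  obtain ⟨j2, hj2⟩ : ∃ j, v 1 j ≠ 0 := by
    by_contra hcon
    push Not at hcon
    apply hk1
    rw [hcon, hcon, mul_zero, mul_zero]
  have h1' : {k : ℕ | v ((b : L) ^ k) j2 = 0}.Finite :=
    finite_zeros_base (hv j2) b hb ⟨1, one_ne_zero, hj2⟩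
  have h2 : ∀ P : Projectivization L (Fin (n + 1) → L), {k : ℕ | ∃ h : v ((b : L) ^ k) ≠ 0,
      P = Projectivization.mk L (v ((b : L) ^ k)) h}.Finite := by
    intro P
    by_contra hinf
    -- all points of the curve are equal to `P`
    have hc : ∀ i j t, t ≠ 0 → v t i * P.rep j - v t j * P.rep i = 0 := by
      intro i j
      have h3 : Laur (fun t => v t i * P.rep j - v t j * P.rep i) := by
        have h4 := ((hv i).mul (Laur.const (P.rep j))).add
          ((hv j).mul (Laur.const (-P.rep i)))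
        have h5 : (fun t => v t i * P.rep j - v t j * P.rep i) =
            fun t => v t i * P.rep j + v t j * -P.rep i := by
          funext t
          ring
        rw [h5]
        exact h4
      by_contra hcon
      push Not at hcon
      apply hinf
      refine (finite_zeros_base h3 b hb hcon).subset ?_
      rintro k ⟨h, hP⟩
      have h6 : Projectivization.mk L P.rep P.rep_nonzero =
          Projectivization.mk L (v ((b : L) ^ k)) h := by
        rw [Projectivization.mk_rep]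
        exact hP
      have h7 := (mk_eq_iff _ _ _ _).1 h6 j i
      show v ((b : L) ^ k) i * P.rep j - v ((b : L) ^ k) j * P.rep i = 0
      linear_combination h7
    obtain ⟨j3, hj3⟩ := Function.ne_iff.mp P.rep_nonzero
    have hj3' : P.rep j3 ≠ 0 := hj3
    apply hk1
    have e1 := hc i1 j3 (2 ^ k1) (pow_ne_zero _ two_ne_zero)
    have e2 := hc j1 j3 (2 ^ k1) (pow_ne_zero _ two_ne_zero)
    have e3 := hc i1 j3 1 one_ne_zero
    have e4 := hc j1 j3 1 one_ne_zero
    have e5 : P.rep j3 ^ 2 * (v (2 ^ k1) i1 * v 1 j1 - v (2 ^ k1) j1 * v 1 i1) = 0 := by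
      linear_combination (P.rep j3 * v 1 j1) * e1 + (v (2 ^ k1) j3 * P.rep i1) * e4 -
        (P.rep j3 * v 1 i1) * e2 - (v (2 ^ k1) j3 * P.rep j1) * e3
    exact sub_eq_zero.1 ((mul_eq_zero.1 e5).resolve_left (pow_ne_zero _ hj3'))
  intro hfin
  apply (h1.union h1').infinite_compl
  refine (hfin.biUnion fun P _ => h2 P).subset ?_
  intro k hk
  have hk1' : eval₂ ψ (v ((b : L) ^ k)) (G l) ≠ 0 := fun h => hk (Or.inl h)
  have hk2' : v ((b : L) ^ k) j2 ≠ 0 := fun h => hk (Or.inr h)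
  have hne0 : v ((b : L) ^ k) ≠ 0 := fun h => hk2' (by rw [h]; rfl)
  refine Set.mem_biUnion (x := Projectivization.mk L (v ((b : L) ^ k)) hne0)
    ⟨(mem_pts F G hF hG L _ hne0).2 ⟨fun i => hvF i _ (pow_ne_zero _ hb0), l, hk1'⟩,
      k, hne0, rfl⟩ ⟨hne0, rfl⟩

theorem not_sparseFinite (hF : ∀ i, ∃ e, (F i).IsHomogeneous e)
    (hG : ∀ l, ∃ e, (G l).IsHomogeneous e) (h : HasCurve F G) : ¬ SparseFinite F G := by
  classical
  obtain ⟨L, _, _, _, v, hv, hvF, hvG, hne⟩ := h
  intro hfin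
  obtain ⟨M, Q, hQ⟩ := Laur.common v hv
  set R : ℕ := Finset.univ.sup (fun j => (Q j).natDegree) with hR
  obtain ⟨D, hD, hDw⟩ := exists_den (Finset.univ.image fun q : Fin (n + 1) × Fin (R + 1) =>
    (Q q.1).coeff (q.2 : ℕ))
  have hDw' : ∀ (j : Fin (n + 1)) (l : Fin (R + 1)), ∃ w : 𝓞 L,
      algebraMap (𝓞 L) L w = (D : L) * (Q j).coeff (l : ℕ) := fun j l =>
    hDw _ (Finset.mem_image.mpr ⟨(j, l), Finset.mem_univ _, rfl⟩)
  choose w hw using hDw'
  set b : ℕ := 2 * D with hb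
  have hb2 : 2 ≤ b := by omega
  have hb0 : (b : L) ≠ 0 := by
    have : b ≠ 0 := by omega
    exact_mod_cast this
  set B : ℝ := ∑ q : Fin (R + 1) × Fin (n + 1), hs ((2 : 𝓞 L) * w q.2 q.1) with hB
  have hBle : ∀ (l : Fin (R + 1)) (j : Fin (n + 1)), hs ((2 : 𝓞 L) * w j l) ≤ B := by
    intro l j
    have h := Finset.single_le_sum (s := (Finset.univ : Finset (Fin (R + 1) × Fin (n + 1))))
      (f := fun q : Fin (R + 1) × Fin (n + 1) => hs ((2 : 𝓞 L) * w q.2 q.1))
      (fun _ _ => hs_nonneg _) (Finset.mem_univ (l, j))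
    exact h
  clear_value B
  clear hR
  refine (infinite_points F G hF hG L v hv hvF hvG hne b hb2)
    ((hfin L b (R + 1) B hb2).subset ?_)
  rintro P ⟨hP, k, hk0, hPk⟩
  refine ⟨hP, v ((b : L) ^ k), hk0, hPk, fun l => (k * l : ℤ) - (k * M : ℤ) - 1,
    fun l j => 2 * w j l, fun l j => ?_, fun j => ?_⟩
  · exact hBle l j
  · rw [hQ _ (pow_ne_zero _ hb0) j, Polynomial.eval_eq_sum_range' (n := R + 1)
      (Nat.lt_succ_of_le (Finset.le_sup (f := fun j => (Q j).natDegree) (Finset.mem_univ j))),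
      Finset.sum_range, Finset.sum_div]
    refine Finset.sum_congr rfl fun l _ => ?_
    rw [map_mul, hw, map_ofNat, zpow_sub₀ hb0, zpow_sub₀ hb0, zpow_one]
    have e1 : (b : L) ^ ((k : ℤ) * ((l : ℕ) : ℤ)) = ((b : L) ^ k) ^ (l : ℕ) := by
      rw [zpow_mul, zpow_natCast, zpow_natCast]
    have e2 : (b : L) ^ ((k : ℤ) * (M : ℤ)) = ((b : L) ^ k) ^ M := by
      rw [zpow_mul, zpow_natCast, zpow_natCast]
    rw [e1, e2]
    have e3 : (b : L) = 2 * (D : L) := by
      rw [hb]
      push_cast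
      ring
    have e4 : ((b : L) ^ k) ^ M ≠ 0 := pow_ne_zero _ (pow_ne_zero _ hb0)
    have hD0 : (D : L) ≠ 0 := by
      have : D ≠ 0 := by omega
      exact_mod_cast this
    field_simp
    rw [e3]
    ring

theorem dich (d : ℕ) (hd : 1 ≤ d) (A : ℝ) (hA : 1 ≤ A)
    (hF : ∀ i, (∃ e, e ≤ d ∧ (F i).IsHomogeneous e) ∧ nrm (F i) ≤ A)
    (L : Type) [Field L] [NumberField L] [Algebra K L] (b r : ℕ) (hb : 2 ≤ b) (B : ℝ) (hB : 1 ≤ B)
    (x : Fin (n + 1) → L) (hxne : x ≠ 0)
    (hx0 : ∀ i, eval₂ ((algebraMap K L).comp (algebraMap (𝓞 K) K)) x (F i) = 0)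
    (hsp : SparseAff b r B x) :
    Projectivization.mk L x hxne ∈ smallPoints L n (bound d A r B) ∨
    ∃ v : L → Fin (n + 1) → L, (∀ j, Laur fun t => v t j) ∧
      (∀ i t, eval₂ ((algebraMap K L).comp (algebraMap (𝓞 K) K)) (v t) (F i) = 0) ∧
      (∃ c : L, c ≠ 0 ∧ v 1 = fun j => c * x j) ∧
      ∃ (k : ℕ) (i j : Fin (n + 1)), v (2 ^ k) i * v 1 j ≠ v (2 ^ k) j * v 1 i := by
  classical
  obtain ⟨m, v, hv, hx⟩ := hsp
  set φ : 𝓞 K →+* L := (algebraMap K L).comp (algebraMap (𝓞 K) K) with hφ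
  have hbK : (b : L) ≠ 0 := by
    have : (b : ℕ) ≠ 0 := by omega
    exact_mod_cast this
  have hr : 1 ≤ r := by
    rcases Nat.eq_zero_or_pos r with h | h
    · subst h
      exfalso
      apply hxne
      funext i
      rw [hx i]
      simp
    · exact h
  -- clear the denominators
  obtain ⟨a, ha⟩ : ∃ a : ℕ, ∀ j, 0 ≤ m j + a := by
    refine ⟨∑ j, (m j).natAbs, fun j => ?_⟩
    have h1 : (m j).natAbs ≤ ∑ j, (m j).natAbs :=
      Finset.single_le_sum (f := fun j => (m j).natAbs) (fun _ _ => Nat.zero_le _)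
        (Finset.mem_univ j)
    omega
  let m' : Fin r → ℕ := fun j => (m j + a).toNat
  let z : Fin (n + 1) → 𝓞 L := fun i => ∑ j, (b : 𝓞 L) ^ (m' j) * v j i
  have hzs : ∀ i, algebraMap (𝓞 L) L (z i) = (b : L) ^ a * x i := by
    intro i
    rw [hx i, Finset.mul_sum]
    simp only [z, m', map_sum, map_mul, map_pow, map_natCast]
    refine Finset.sum_congr rfl fun j _ => ?_
    rw [← mul_assoc]
    congr 1
    rw [← zpow_natCast, ← zpow_natCast, ← zpow_add₀ hbK, Int.toNat_of_nonneg (ha j), add_comm]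
  have hzK : (fun i => algebraMap (𝓞 L) L (z i)) = fun i => (b : L) ^ a * x i := funext hzs
  have hinjK := FaithfulSMul.algebraMap_injective (𝓞 L) L
  have hz : z ≠ 0 := by
    intro h
    apply hxne
    funext i
    have h1 := hzs i
    rw [h] at h1
    simp only [Pi.zero_apply, map_zero] at h1
    exact (mul_eq_zero.1 h1.symm).resolve_left (pow_ne_zero _ hbK)
  let FF : Set (MvPolynomial (Fin (n + 1)) (𝓞 L)) :=
    Set.range fun i => map (algebraMap (𝓞 K) (𝓞 L)) (F i)
  have hzero : ∀ F' ∈ FF, aeval z F' = 0 := by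
    rintro _ ⟨i, rfl⟩
    apply hinjK
    rw [map_zero]
    have h1 : algebraMap (𝓞 L) L (aeval z (map (algebraMap (𝓞 K) (𝓞 L)) (F i))) =
        eval₂ φ (fun i => algebraMap (𝓞 L) L (z i)) (F i) := by
      rw [aeval_def, eval₂_map, MvPolynomial.hom_eval₂]
      congr 1
    obtain ⟨⟨e, -, he⟩, -⟩ := hF i
    rw [h1, hzK, eval₂_smul φ he, hx0, mul_zero]
  have hFK : ∀ F' ∈ FF, (∃ e, e ≤ d ∧ F'.IsHomogeneous e) ∧ nrm F' ≤ A := by
    rintro _ ⟨i, rfl⟩
    obtain ⟨⟨e, he, hFe⟩, hA'⟩ := hF i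
    exact ⟨⟨e, he, hFe.map _⟩, (nrm_map_le _).trans hA'⟩
  rcases dichotomyL_all FF d hd A hA hFK b hb r hr B hB m' v hv z hz
    (fun i => rfl) hzero with ⟨lam, hcur, i, i', hc⟩ | ⟨y, hy0, hzy, hyB⟩
  · right
    let P : Fin (n + 1) → Polynomial L := fun i => (curve b m' lam v i).map (algebraMap (𝓞 L) L)
    have hP1 : ∀ i, (P i).eval 1 = algebraMap (𝓞 L) L (z i) := by
      intro i
      have h3 := curve_eval_one b m' lam v i
      simp only [P]
      rw [Polynomial.eval_map, Polynomial.eval₂_at_one, h3]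
    refine ⟨fun t j => (P j).eval t, fun j => Laur.poly _, ?_, ⟨(b : L) ^ a,
      pow_ne_zero _ hbK, ?_⟩, ?_⟩
    · intro i t
      have h1 := hcur _ ⟨i, rfl⟩
      have h2 := congrArg (fun q : Polynomial (𝓞 L) => (q.map (algebraMap (𝓞 L) L)).eval t) h1
      simp only [Polynomial.map_zero, Polynomial.eval_zero] at h2
      rw [← h2]
      let Ψ : Polynomial (𝓞 L) →+* L :=
        (Polynomial.evalRingHom t).comp (Polynomial.mapRingHom (algebraMap (𝓞 L) L))
      show _ = Ψ (aeval (curve b m' lam v) (map (algebraMap (𝓞 K) (𝓞 L)) (F i)))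
      rw [aeval_def, eval₂_map, MvPolynomial.hom_eval₂]
      congr 1
      refine RingHom.ext fun a => ?_
      show φ a = Ψ (algebraMap (𝓞 L) (Polynomial (𝓞 L)) (algebraMap (𝓞 K) (𝓞 L) a))
      rw [Polynomial.algebraMap_apply]
      show _ = ((Polynomial.C (algebraMap (𝓞 L) (𝓞 L) (algebraMap (𝓞 K) (𝓞 L) a))).map
        (algebraMap (𝓞 L) L)).eval t
      rw [Polynomial.map_C, Polynomial.eval_C]
      rfl
    · funext j
      show (P j).eval 1 = _
      rw [hP1, hzs]
    · by_contra hcon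
      push Not at hcon
      apply hc
      apply Polynomial.map_injective (algebraMap (𝓞 L) L) hinjK
      rw [Polynomial.map_mul, Polynomial.map_mul, Polynomial.map_C, Polynomial.map_C]
      show P i * Polynomial.C (algebraMap (𝓞 L) L (z i')) =
        P i' * Polynomial.C (algebraMap (𝓞 L) L (z i))
      rw [← sub_eq_zero]
      by_contra hne
      have h2 := Polynomial.finite_setOfPred_isRoot hne
      have h3 : Function.Injective fun n : ℕ => (2 : L) ^ n := by
        intro a b hab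
        have h5 : ((2 ^ a : ℕ) : L) = ((2 ^ b : ℕ) : L) := by
          push_cast
          exact hab
        exact Nat.pow_right_injective (le_refl 2) (Nat.cast_injective h5)
      apply Set.infinite_range_of_injective h3
      refine h2.subset ?_
      rintro _ ⟨k, rfl⟩
      have h5 := hcon k i i'
      rw [hP1, hP1] at h5
      simp only [Set.mem_ofPred_eq, Polynomial.IsRoot.def, Polynomial.eval_sub,
        Polynomial.eval_mul, Polynomial.eval_C]
      rw [h5, sub_self]
  · left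
    refine ⟨y, (ne_zero_iff y).2 hy0, ?_, hyB⟩
    rw [← mk_eq z y ((ne_zero_iff z).2 hz) _ hzy, mk_eq_iff]
    intro i j
    rw [hzs, hzs]
    ring

theorem bounded_of_not_hasCurve (hG : ∀ l, ∃ e, (G l).IsHomogeneous e) (h : ¬ HasCurve F G) :
    SparseBounded F G := by
  intro d A hd hA hF L _ _ _ b r B hb hB P hP
  obtain ⟨hPV, x, hx, rfl, hsp⟩ := hP
  rw [mem_pts F G (fun i => (hF i).1.imp fun e he => he.2) hG] at hPV
  obtain ⟨hxF, l, hl⟩ := hPV
  rcases dich F d hd A hA hF L b r hb B hB x hx hxF hsp with h1 |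
    ⟨v, hv, hvF, ⟨c, hc, hv1⟩, hk⟩
  · exact h1
  · exfalso
    apply h
    refine ⟨L, inferInstance, inferInstance, inferInstance, v, hv, fun i t _ => hvF i t,
      ⟨l, ?_⟩, hk⟩
    obtain ⟨e, he⟩ := hG l
    rw [hv1, eval₂_smul _ he]
    exact mul_ne_zero (pow_ne_zero _ hc) hl

theorem all_of_bounded [Finite ι] (hF : ∀ i, ∃ e, (F i).IsHomogeneous e)
    (h : SparseBounded F G) : SparseFiniteAll F G := by
  classical
  have := Fintype.ofFinite ι
  choose e he using hF
  intro L _ _ _ r B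
  set d : ℕ := ∑ i, e i + 1 with hd
  set A : ℝ := ∑ i, nrm (F i) + 1 with hA
  have hF' : ∀ i, (∃ e, e ≤ d ∧ (F i).IsHomogeneous e) ∧ nrm (F i) ≤ A := by
    intro i
    constructor
    · refine ⟨e i, ?_, he i⟩
      have := Finset.single_le_sum (f := e) (fun _ _ => Nat.zero_le _) (Finset.mem_univ i)
      omega
    · have := Finset.single_le_sum (f := fun i => nrm (F i))
        (fun _ _ => Pool.Agent.H458.Sp.nrm_nonneg _) (Finset.mem_univ i)
      linarith
  have hA1 : 1 ≤ A := by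
    have : 0 ≤ ∑ i, nrm (F i) := Finset.sum_nonneg fun _ _ => Pool.Agent.H458.Sp.nrm_nonneg _
    linarith
  refine (smallPoints_finite n (bound d A r (max B 1))).subset ?_
  rintro P ⟨b, hb, hPV, x, hx, rfl, m, v, hv, hxv⟩
  exact h d A (by omega) hA1 hF' L b r (max B 1) hb (le_max_right _ _)
    ⟨hPV, x, hx, rfl, m, v, fun j i => (hv j i).trans (le_max_left _ _), hxv⟩

omit [NumberField K] in
theorem sparse_of_all (h : SparseFiniteAll F G) : SparseFinite F G := by
  intro L _ _ _ b r B hb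
  exact (h L r B).subset fun x hx => ⟨b, hb, hx⟩

omit [NumberField K] in
theorem not_rec_of_hasCurve (hF : ∀ i, ∃ e, (F i).IsHomogeneous e)
    (hG : ∀ l, ∃ e, (G l).IsHomogeneous e) (h : HasCurve F G) : ¬ RecurrenceFinite F G := by
  classical
  obtain ⟨L, _, _, _, v, hv, hvF, hvG, hne⟩ := h
  intro hcon
  have hrec : ∀ j, IsLinRec fun k : ℕ => v ((2 : L) ^ k) j := by
    intro j
    obtain ⟨M, Q, hQ⟩ := hv j
    have h1 : (fun k : ℕ => v ((2 : L) ^ k) j) = fun k : ℕ =>
        ∑ l ∈ Finset.range (Q.natDegree + 1), Q.coeff l * ((2 : L) ^ l / 2 ^ M) ^ k := by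
      funext k
      have h2 := hQ ((2 : L) ^ k) (pow_ne_zero _ two_ne_zero)
      have h3 : (((2 : L) ^ k) ^ M) ≠ 0 := pow_ne_zero _ (pow_ne_zero _ two_ne_zero)
      have h4 : v ((2 : L) ^ k) j = Q.eval ((2 : L) ^ k) / ((2 : L) ^ k) ^ M := by
        rw [eq_div_iff h3, h2]
      rw [h4, Polynomial.eval_eq_sum_range, Finset.sum_div]
      refine Finset.sum_congr rfl fun l _ => ?_
      rw [div_pow, ← pow_mul, ← pow_mul, ← pow_mul, ← pow_mul, mul_comm l k, mul_comm M k,
        mul_div_assoc]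
    rw [h1]
    exact IsLinRec.sum _ _ fun l _ => (IsLinRec.geom _).const_mul _
  have h1 := hcon L (fun k => v ((2 : L) ^ k)) hrec
    (fun k i => hvF i _ (pow_ne_zero _ two_ne_zero))
  refine infinite_points F G hF hG L v hv hvF hvG hne 2 le_rfl (h1.subset ?_)
  rintro P ⟨hP, k, hk, hPk⟩
  have h2 : v (((2 : ℕ) : L) ^ k) = v ((2 : L) ^ k) := by
    norm_num
  refine ⟨hP, k, ?_, ?_⟩
  · rw [← h2]
    exact hk
  · rw [hPk]
    congr 1

theorem not_exp_of_not_rec (hF : ∀ i, ∃ e, (F i).IsHomogeneous e)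
    (hG : ∀ l, ∃ e, (G l).IsHomogeneous e) (h : ¬ RecurrenceFinite F G) :
    ¬ ExpCurvesIn σ F G := by
  classical
  unfold RecurrenceFinite at h
  push Not at h
  obtain ⟨L, _, _, _, x, hrec, hx, hinf⟩ := h
  let _ : Algebra K ℂ := σ.toAlgebra
  have : Algebra.IsAlgebraic K L := by
    have := NumberField.to_finiteDimensional (K := L)
    have : IsScalarTower ℚ K L := by infer_instance
    have : FiniteDimensional K L := FiniteDimensional.right ℚ K L
    infer_instance
  let τ : L →ₐ[K] ℂ := IsAlgClosed.lift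
  have hτi : Function.Injective τ := (τ : L →+* ℂ).injective
  have hτ : ∀ (x : Fin (n + 1) → L) (Q : MvPolynomial (Fin (n + 1)) (𝓞 K)),
      τ (eval₂ ((algebraMap K L).comp (algebraMap (𝓞 K) K)) x Q) =
        eval₂ (σ.comp (algebraMap (𝓞 K) K)) (fun j => τ (x j)) Q := by
    intro x Q
    have h1 : (τ : L →+* ℂ).comp ((algebraMap K L).comp (algebraMap (𝓞 K) K)) =
        σ.comp (algebraMap (𝓞 K) K) := by
      ext a
      exact τ.commutes _
    have h2 := MvPolynomial.hom_eval₂ Q ((algebraMap K L).comp (algebraMap (𝓞 K) K))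
      (τ : L →+* ℂ) x
    rw [h1] at h2
    exact h2
  obtain ⟨M, k₀, hM, hU⟩ := interp (fun k j => τ (x k j)) (fun j => (hrec j).map (τ : L →+* ℂ))
  -- a residue class with infinitely many values
  let T : ℕ → Set (Projectivization L (Fin (n + 1) → L)) := fun c =>
    {P | P ∈ Pts F G L ∧ ∃ (k : ℕ) (h : x (M * k + c) ≠ 0), k₀ ≤ k ∧
      P = Projectivization.mk L (x (M * k + c)) h}
  obtain ⟨c, hc⟩ : ∃ c, (T c).Infinite := by
    by_contra hno
    push Not at hno
    apply hinf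
    let g : ℕ → Projectivization L (Fin (n + 1) → L) := fun k =>
      if h : x k ≠ 0 then Projectivization.mk L (x k) h else
        Projectivization.mk L (fun _ => 1) (fun h => one_ne_zero (congrFun h 0))
    have h1 : {P | P ∈ Pts F G L ∧ ∃ (k : ℕ) (h : x k ≠ 0), P = Projectivization.mk L (x k) h} ⊆
        (g '' {k | k < M * k₀}) ∪ ⋃ c ∈ {c | c < M}, T c := by
      rintro P ⟨hP, k, hk, hPk⟩
      rcases Nat.lt_or_ge k (M * k₀) with h2 | h2
      · refine Or.inl ⟨k, h2, ?_⟩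
        simp only [g]
        rw [dif_pos hk]
        exact hPk.symm
      · right
        have h3 : M * (k / M) + k % M = k := Nat.div_add_mod k M
        refine Set.mem_biUnion (x := k % M) (Nat.mod_lt _ hM) ⟨hP, k / M, ?_, ?_, ?_⟩
        · rw [h3]
          exact hk
        · rw [Nat.le_div_iff_mul_le hM, mul_comm]
          exact h2
        · rw [hPk]
          congr 1
          rw [h3]
    refine Set.Finite.subset (((Set.finite_lt_nat _).image _).union
      ((Set.finite_lt_nat _).biUnion fun c _ => hno c)) h1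
  obtain ⟨U, hUe, hUd, hUk, hUQ⟩ := hU c
  intro hcon
  have hFU : ∀ z i, eval₂ (σ.comp (algebraMap (𝓞 K) K)) (U z) (F i) = 0 := by
    intro z i
    rw [eval₂_eq_eval_map]
    apply hUQ
    intro k _
    rw [← eval₂_eq_eval_map, ← hτ, hx _ i, map_zero]
  have hnc : ∃ z w i j, U z i * U w j ≠ U z j * U w i := by
    by_contra hno
    push Not at hno
    apply hc
    obtain ⟨P₀, hP₀, k₁, hk₁, hkk, hPk₁⟩ := hc.nonempty
    have h1 : T c ⊆ {P₀} := by
      rintro P ⟨hP, k, hk, hk', hPk⟩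
      rw [Set.mem_singleton_iff, hPk, hPk₁, mk_eq_iff]
      intro i j
      have h2 := hno (k : ℂ) (k₁ : ℂ) i j
      rw [hUk k hk', hUk k₁ hkk] at h2
      apply hτi
      rw [map_mul, map_mul]
      exact h2
    exact (Set.finite_singleton _).subset h1
  have h1 := hcon U ⟨hUd, fun z => z, differentiable_id, ⟨0, 1, zero_ne_one⟩, hUe⟩ hFU hnc
  obtain ⟨P, hP, k, hk, hk', rfl⟩ := hc.nonempty
  rw [mem_pts F G hF hG] at hP
  obtain ⟨-, l, hl⟩ := hP
  apply hl
  have h2 := h1 (k : ℂ) l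
  rw [hUk k hk', ← hτ] at h2
  exact (map_eq_zero_iff (τ : L →+* ℂ) hτi).1 h2

/-- **the equivalence** -/
theorem tfae [Finite ι] (hF : ∀ i, ∃ e, (F i).IsHomogeneous e)
    (hG : ∀ l, ∃ e, (G l).IsHomogeneous e) :
    List.TFAE [ExpCurvesIn σ F G, RatCurvesIn σ F G, SparseFinite F G,
      SparseFiniteAll F G, SparseBounded F G, RecurrenceFinite F G] := by
  tfae_have 1 → 2 := fun h => by
    by_contra h2
    exact exp_of_rat σ F G h2 h
  tfae_have 2 → 5 := fun h => bounded_of_not_hasCurve F G hG fun h2 =>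
    not_rat_of_hasCurve σ F G hF h2 h
  tfae_have 5 → 4 := all_of_bounded F G hF
  tfae_have 4 → 3 := sparse_of_all F G
  tfae_have 3 → 1 := fun h => by
    by_contra h2
    exact not_sparseFinite F G hF hG (hasCurve_of_exp F G σ h2) h
  tfae_have 1 → 6 := fun h => by
    by_contra h2
    exact not_exp_of_not_rec σ F G hF hG h2 h
  tfae_have 6 → 1 := fun h => by
    by_contra h2
    exact not_rec_of_hasCurve F G hF hG (hasCurve_of_exp F G σ h2) h
  tfae_finish

omit [NumberField K] in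
theorem rec_of_rational (h : RationalFinite F G) : RecurrenceFinite F G := by
  intro L _ _ _ x _ _
  exact (h L).subset fun P hP => hP.1

omit [NumberField K] in
/-- an entire function with values in the affine cone gives an entire curve -/
theorem exists_holo (x : ℂ → Fin (n + 1) → ℂ) (hx : Differentiable ℂ x) (hne : ∃ z, x z ≠ 0) :
    ∃ f : ℂ → Projectivization ℂ (Fin (n + 1) → ℂ), IsHolo f ∧
      ∀ z (h : x z ≠ 0), f z = Projectivization.mk ℂ (x z) h := by
  classical
  have hlocal : ∀ z₀, ∃ (m : ℕ) (g : ℂ → Fin (n + 1) → ℂ), AnalyticAt ℂ g z₀ ∧ g z₀ ≠ 0 ∧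
      ∀ᶠ z in 𝓝 z₀, x z = (z - z₀) ^ m • g z := by
    intro z₀
    rw [(hx.analyticAt z₀).exists_eventuallyEq_pow_smul_nonzero_iff]
    intro h0
    obtain ⟨z, hz⟩ := hne
    apply hz
    have h1 := AnalyticOnNhd.eqOn_zero_of_preconnected_of_eventuallyEq_zero (f := x)
      (U := Set.univ) (fun z _ => hx.analyticAt z) isPreconnected_univ (Set.mem_univ z₀) h0
    exact h1 (Set.mem_univ z)
  choose m g hg hg0 hxg using hlocal
  let f : ℂ → Projectivization ℂ (Fin (n + 1) → ℂ) := fun z =>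
    if h : x z ≠ 0 then Projectivization.mk ℂ (x z) h else Projectivization.mk ℂ (g z z) (hg0 z)
  have hf : ∀ z (h : x z ≠ 0), f z = Projectivization.mk ℂ (x z) h := fun z h => dif_pos h
  refine ⟨f, ?_, hf⟩
  intro z₀
  refine ⟨g z₀, hg z₀, ?_⟩
  have h1 : ∀ᶠ z in 𝓝 z₀, g z₀ z ≠ 0 := (hg z₀).continuousAt.eventually_ne (hg0 z₀)
  filter_upwards [h1, hxg z₀] with z hz hz'
  refine ⟨hz, ?_⟩
  by_cases hzz : z = z₀
  · subst hzz
    by_cases hxz : x z ≠ 0
    · rw [hf z hxz, mk_eq_iff]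
      intro i j
      rw [hz']
      simp only [Pi.smul_apply, smul_eq_mul]
      ring
    · show (if h : x z ≠ 0 then Projectivization.mk ℂ (x z) h else
        Projectivization.mk ℂ (g z z) (hg0 z)) = _
      rw [dif_neg hxz]
  · have hp : (z - z₀) ^ m z₀ ≠ 0 := pow_ne_zero _ (sub_ne_zero.2 hzz)
    have hxz : x z ≠ 0 := by
      rw [hz']
      exact smul_ne_zero hp hz
    rw [hf z hxz, mk_eq_iff]
    intro i j
    rw [hz']
    simp only [Pi.smul_apply, smul_eq_mul]
    ring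

omit [NumberField K] in
theorem exp_of_entire (hF : ∀ i, ∃ e, (F i).IsHomogeneous e)
    (hG : ∀ l, ∃ e, (G l).IsHomogeneous e) (h : EntireCurvesIn σ F G) : ExpCurvesIn σ F G := by
  intro x hx hxF hnc z l
  set φ : 𝓞 K →+* ℂ := σ.comp (algebraMap (𝓞 K) K) with hφ
  obtain ⟨z₁, w₁, i₁, j₁, hne⟩ := hnc
  have hz₁ : x z₁ ≠ 0 := by
    intro h0
    apply hne
    rw [h0]
    simp
  have hw₁ : x w₁ ≠ 0 := by
    intro h0
    apply hne
    rw [h0]
    simp
  obtain ⟨f, hf, hfx⟩ := exists_holo x hx.1 ⟨z₁, hz₁⟩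
  have hxj : ∀ j, Differentiable ℂ (fun z => x z j) := fun j => by
    have := hx.1
    rw [differentiable_pi] at this
    exact this j
  obtain ⟨j₀, hj₀⟩ := Function.ne_iff.mp hz₁
  have hj₀' : x z₁ j₀ ≠ 0 := hj₀
  -- forms vanish along the curve
  have hV : ∀ z i, eval₂ φ (f z).rep (F i) = 0 := by
    intro z₀ i
    obtain ⟨e, he⟩ := hF i
    obtain ⟨g, hg, hfg⟩ := hf z₀
    obtain ⟨hg0, hfg0⟩ := hfg.self_of_nhds
    rw [hfg0, rep_zero_iff φ he]
    -- near `z₀`, off `z₀`
    have h1 : ∀ᶠ z in 𝓝[≠] z₀, eval₂ φ (g z) (F i) = 0 := by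
      filter_upwards [hfg.filter_mono nhdsWithin_le_nhds, ev_ne (hxj j₀) hj₀' z₀] with y hy hy'
      obtain ⟨hgy, hfy⟩ := hy
      have hxy : x y ≠ 0 := fun h0 => hy' (by rw [h0]; rfl)
      rw [← rep_zero_iff φ he (g y) hgy, ← hfy, hfx y hxy, rep_zero_iff φ he]
      exact hxF y i
    have h2 : ContinuousAt (fun z => eval₂ φ (g z) (F i)) z₀ := by
      have h3 : (fun z => eval₂ φ (g z) (F i)) =
          (fun y : Fin (n + 1) → ℂ => eval y (map φ (F i))) ∘ g := by
        funext y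
        simp only [Function.comp_apply]
        rw [eval₂_eq_eval_map]
      rw [h3]
      exact ContinuousAt.comp (MvPolynomial.continuous_eval _).continuousAt hg.continuousAt
    have h3 : Tendsto (fun z => eval₂ φ (g z) (F i)) (𝓝[≠] z₀) (𝓝 (eval₂ φ (g z₀) (F i))) :=
      h2.tendsto.mono_left nhdsWithin_le_nhds
    have h4 : Tendsto (fun z => eval₂ φ (g z) (F i)) (𝓝[≠] z₀) (𝓝 0) := by
      refine (tendsto_const_nhds (x := (0 : ℂ))).congr' ?_
      filter_upwards [h1] with y hy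
      exact hy.symm
    exact tendsto_nhds_unique h3 h4
  have hne' : f z₁ ≠ f w₁ := by
    rw [hfx z₁ hz₁, hfx w₁ hw₁, Ne, mk_eq_iff]
    intro hcon
    exact hne (hcon i₁ j₁)
  have hall := h f hf hV ⟨z₁, w₁, hne'⟩
  obtain ⟨e, he⟩ := hG l
  -- off the common zeros
  have h5 : ∀ y, x y ≠ 0 → eval₂ φ (x y) (G l) = 0 := by
    intro y hy
    have h6 := hall y l
    rw [hfx y hy, rep_zero_iff φ he] at h6
    exact h6
  by_contra hcon
  have hGd : Differentiable ℂ (fun z => eval₂ φ (x z) (G l)) := by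
    have : (fun z => eval₂ φ (x z) (G l)) = fun z => eval (x z) (map φ (G l)) :=
      funext fun z => eval₂_eq_eval_map _ _ _
    rw [this]
    exact Pool.Agent.H159R3.Exp.differentiable_eval hx.1 _
  obtain ⟨y, hy1, hy2⟩ := ((ev_ne (hxj j₀) hj₀' 0).and (ev_ne hGd hcon 0)).exists
  exact hy2 (h5 y fun h0 => hy1 (by rw [h0]; rfl))

end proofs

end Pool.Agent.W235.PR
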