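import Pool.Agent.W235.RM.Final

/-!
Projective varieties over number fields: the definitions, and curves over number fields from entire
curves of exponential type.
-/

set_option autoImplicit false

namespace Pool.Agent.W235.PR

open Filter MvPolynomial IsDedekindDomain Pool.Agent.H159R3.NV Pool.Agent.H159R3.Exp
open Pool.Agent.W235.RM
open scoped NumberField Topology

/-- homogeneous polynomials at multiples of a point -/
theorem eval₂_smul {R S : Type*} [CommRing R] [CommRing S] {n : ℕ} (φ : R →+* S)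
    {Q : MvPolynomial (Fin n) R} {e : ℕ} (hQ : Q.IsHomogeneous e) (a : S) (x : Fin n → S) :
    eval₂ φ (fun j => a * x j) Q = a ^ e * eval₂ φ x Q := by
  rw [eval₂_eq', eval₂_eq', Finset.mul_sum]
  refine Finset.sum_congr rfl fun α hα => ?_
  have h1 : ∑ i, α i = e := by
    rw [hQ.degree_eq_sum_deg_support hα]
    refine (Finset.sum_subset (Finset.subset_univ _) fun i _ hi => ?_).symm
    simpa using hi
  simp only [mul_pow]
  rw [Finset.prod_mul_distrib, Finset.prod_pow_eq_pow_sum, h1]
  ring

/-- the vanishing of a form at a point of projective space -/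
theorem rep_zero_iff {R L : Type*} [CommRing R] [Field L] {n : ℕ} (φ : R →+* L)
    {Q : MvPolynomial (Fin (n + 1)) R} {e : ℕ} (hQ : Q.IsHomogeneous e) (x : Fin (n + 1) → L)
    (hx : x ≠ 0) :
    eval₂ φ (Projectivization.mk L x hx).rep Q = 0 ↔ eval₂ φ x Q = 0 := by
  obtain ⟨a, ha⟩ := Projectivization.exists_smul_eq_mk_rep L x hx
  have h1 : (Projectivization.mk L x hx).rep = fun j => (a : L) * x j := by
    rw [← ha]
    rfl
  rw [h1, eval₂_smul φ hQ, mul_eq_zero]
  exact ⟨fun h => h.resolve_left (pow_ne_zero _ a.ne_zero), Or.inr⟩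

/-- equality of points of projective space -/
theorem mk_eq_iff {L : Type*} [Field L] {n : ℕ} (x y : Fin (n + 1) → L) (hx : x ≠ 0) (hy : y ≠ 0) :
    Projectivization.mk L x hx = Projectivization.mk L y hy ↔ ∀ i j, x i * y j = x j * y i := by
  rw [Projectivization.mk_eq_mk_iff']
  constructor
  · rintro ⟨a, rfl⟩ i j
    simp only [Pi.smul_apply, smul_eq_mul]
    ring
  · intro h
    obtain ⟨j, hj⟩ := Function.ne_iff.mp hy
    refine ⟨x j / y j, funext fun i => ?_⟩
    have hj' : y j ≠ 0 := hj
    simp only [Pi.smul_apply, smul_eq_mul]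
    rw [div_mul_eq_mul_div, div_eq_iff hj']
    exact (h i j).symm

section defs

variable {K : Type} [Field K] {ι κ : Type} {n : ℕ}

/-- The points over `L` of the projective variety `V` given by the forms `F`, outside its closed
subscheme `V'` given by the forms `G`. -/
def Pts (F : ι → MvPolynomial (Fin (n + 1)) (𝓞 K)) (G : κ → MvPolynomial (Fin (n + 1)) (𝓞 K))
    (L : Type) [Field L] [Algebra K L] : Set (Projectivization L (Fin (n + 1) → L)) :=
  {P | (∀ i, eval₂ ((algebraMap K L).comp (algebraMap (𝓞 K) K)) P.rep (F i) = 0) ∧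
    ∃ l, eval₂ ((algebraMap K L).comp (algebraMap (𝓞 K) K)) P.rep (G l) ≠ 0}

/-- Condition (i) for exponential type: a nonconstant entire curve in `V` which has
homogeneous coordinates of exponential type (possibly with common zeros) lies in `V'`. -/
def ExpCurvesIn (σ : K →+* ℂ) (F : ι → MvPolynomial (Fin (n + 1)) (𝓞 K))
    (G : κ → MvPolynomial (Fin (n + 1)) (𝓞 K)) : Prop :=
  ∀ f : ℂ → Fin (n + 1) → ℂ, ExpType f →
    (∀ z i, eval₂ (σ.comp (algebraMap (𝓞 K) K)) (f z) (F i) = 0) →
    (∃ z w i j, f z i * f w j ≠ f z j * f w i) →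
    ∀ z l, eval₂ (σ.comp (algebraMap (𝓞 K) K)) (f z) (G l) = 0

/-- The data of a nonconstant curve with Laurent coordinates over a number field, which lies in
`V` and not in `V'`. -/
def HasCurve (F : ι → MvPolynomial (Fin (n + 1)) (𝓞 K))
    (G : κ → MvPolynomial (Fin (n + 1)) (𝓞 K)) : Prop :=
  ∃ (L : Type) (_ : Field L) (_ : NumberField L) (_ : Algebra K L) (v : L → Fin (n + 1) → L),
    (∀ j, Laur fun t => v t j) ∧
    (∀ i t, t ≠ 0 → eval₂ ((algebraMap K L).comp (algebraMap (𝓞 K) K)) (v t) (F i) = 0) ∧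
    (∃ l, eval₂ ((algebraMap K L).comp (algebraMap (𝓞 K) K)) (v 1) (G l) ≠ 0) ∧
    ∃ (k : ℕ) (i j : Fin (n + 1)), v (2 ^ k) i * v 1 j ≠ v (2 ^ k) j * v 1 i

end defs

variable {K : Type} [Field K] [NumberField K] {ι κ : Type} {n : ℕ}

theorem hasCurve_of_exp (F : ι → MvPolynomial (Fin (n + 1)) (𝓞 K))
    (G : κ → MvPolynomial (Fin (n + 1)) (𝓞 K)) (σ : K →+* ℂ) (h0 : ¬ ExpCurvesIn σ F G) :
    HasCurve F G := by
  classical
  unfold ExpCurvesIn at h0
  push Not at h0
  obtain ⟨f0, hf0, hfF0, ⟨z₁, w₁, a, c, hnc0⟩, zG, i', hG⟩ := h0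
  obtain ⟨hf0d, h, hh, hhc, hf⟩ := hf0
  set φ : 𝓞 K →+* ℂ := σ.comp (algebraMap (𝓞 K) K) with hφ
  -- replace the curve by a composition
  set f : ℂ → Fin (n + 1) → ℂ := fun z => f0 (h z) with hfdef
  have hfd : Differentiable ℂ f := hf0d.comp hh
  have hfF : ∀ z i, eval₂ φ (f z) (F i) = 0 := fun z i => hfF0 (h z) i
  obtain ⟨z2, hz2⟩ : ∃ z, eval₂ φ (f z) (G i') ≠ 0 := by
    have h1 := comp_ne (F := fun z => eval (f0 z) (map φ (G i'))) (differentiable_eval hf0d _)
      ⟨zG, by rw [← eval₂_eq_eval_map]; exact hG⟩ hh hhc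
    obtain ⟨z, hz⟩ := h1
    exact ⟨z, by rw [eval₂_eq_eval_map]; exact hz⟩
  have hf0j : ∀ j, Differentiable ℂ (fun z => f0 z j) := fun j => by
    rw [differentiable_pi] at hf0d
    exact hf0d j
  have hfj : ∀ j, Differentiable ℂ (fun z => f z j) := fun j => by
    rw [differentiable_pi] at hfd
    exact hfd j
  have hdj : ∀ j, Differentiable ℂ (deriv (fun z => f z j)) := fun j =>
    ((hfj j).contDiff (n := 2)).differentiable_deriv_two
  -- the Wronskian
  obtain ⟨zd, hzd⟩ : ∃ z, f z a * deriv (fun z => f z c) z - f z c * deriv (fun z => f z a) z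
      ≠ 0 := by
    by_contra hcon
    push Not at hcon
    -- nonproportional values of `f`
    obtain ⟨z₂, hz₂⟩ : ∃ z, f z a * f0 w₁ c - f z c * f0 w₁ a ≠ 0 :=
      comp_ne (F := fun y => f0 y a * f0 w₁ c - f0 y c * f0 w₁ a)
        (((hf0j a).mul_const _).sub ((hf0j c).mul_const _))
        ⟨z₁, sub_ne_zero.mpr hnc0⟩ hh hhc
    obtain ⟨w₂, hw₂⟩ : ∃ w, f z₂ a * f w c - f z₂ c * f w a ≠ 0 :=
      comp_ne (F := fun y => f z₂ a * f0 y c - f z₂ c * f0 y a)
        (((hf0j c).const_mul _).sub ((hf0j a).const_mul _))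
        ⟨w₁, hz₂⟩ hh hhc
    -- one of the two coordinates does not vanish at some point
    have key : ∀ a c : Fin (n + 1),
        (∀ z, f z a * deriv (fun z => f z c) z - f z c * deriv (fun z => f z a) z = 0) →
        (∃ z, f z a ≠ 0) → ∃ lam : ℂ, ∀ z, f z c = lam * f z a := by
      intro a c hW hne
      obtain ⟨y, hy⟩ := hne
      -- near `y` the quotient is constant
      refine ⟨f y c / f y a, ?_⟩
      have hU : ∀ᶠ z in 𝓝 y, f z a ≠ 0 := (hfj a).continuous.continuousAt.eventually_ne hy
      obtain ⟨ε, hε, hball⟩ := Metric.eventually_nhds_iff_ball.mp hU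
      have hq : ∀ z ∈ Metric.ball y ε, HasDerivAt (fun z => f z c / f z a) 0 z := by
        intro z hz
        have h1 := ((hfj c) z).hasDerivAt.div ((hfj a) z).hasDerivAt (hball z hz)
        have h2 : (deriv (fun z => f z c) z * f z a - f z c * deriv (fun z => f z a) z) /
            f z a ^ 2 = 0 := by
          rw [div_eq_zero_iff]
          left
          have := hW z
          linear_combination this
        rw [h2] at h1
        exact h1
      have hconst : ∀ z ∈ Metric.ball y ε, f z c / f z a = f y c / f y a := by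
        intro z hz
        have h1 := (convex_ball y ε).is_const_of_fderivWithin_eq_zero (𝕜 := ℂ)
          (f := fun z => f z c / f z a) (fun z hz => (hq z hz).differentiableAt.differentiableWithinAt)
          (fun z hz => by
            rw [fderivWithin_of_isOpen Metric.isOpen_ball hz]
            have h3 := (hq z hz).hasFDerivAt.fderiv
            rw [h3]
            ext
            simp) hz (Metric.mem_ball_self hε)
        exact h1
      have h3 : ∀ᶠ z in 𝓝 y, f z c - f y c / f y a * f z a = 0 := by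
        filter_upwards [Metric.ball_mem_nhds y hε] with z hz
        have h4 := hconst z hz
        rw [div_eq_iff (hball z hz)] at h4
        rw [h4, sub_self]
      have h5 : Differentiable ℂ fun z => f z c - f y c / f y a * f z a :=
        (hfj c).sub ((hfj a).const_mul _)
      intro z
      by_contra hcon
      have h6 := ev_ne h5 (sub_ne_zero.mpr hcon) y
      exact (h6.and (h3.filter_mono nhdsWithin_le_nhds)).exists.elim fun u hu => hu.1 hu.2
    have hc2 : ∃ z, f z a ≠ 0 ∨ f z c ≠ 0 := by
      by_contra hno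
      push Not at hno
      apply hw₂
      rw [(hno z₂).1, (hno z₂).2]
      ring
    obtain ⟨y, hy | hy⟩ := hc2
    · obtain ⟨lam, hlam⟩ := key a c hcon ⟨y, hy⟩
      apply hw₂
      rw [hlam, hlam]
      ring
    · obtain ⟨lam, hlam⟩ := key c a (fun z => by
        have := hcon z
        linear_combination -this) ⟨y, hy⟩
      apply hw₂
      rw [hlam z₂, hlam w₂]
      ring
  have hWd : Differentiable ℂ fun z => f z a * deriv (fun z => f z c) z -
      f z c * deriv (fun z => f z a) z :=
    ((hfj a).mul (hdj c)).sub ((hfj c).mul (hdj a))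
  have hGd : Differentiable ℂ (fun z => eval₂ φ (f z) (G i')) := by
    have : (fun z => eval₂ φ (f z) (G i')) = fun z => eval (f z) (map φ (G i')) :=
      funext fun z => eval₂_eq_eval_map _ _ _
    rw [this]
    exact differentiable_eval hfd _
  obtain ⟨z0, hz0, hz0G⟩ := ((ev_ne hWd hzd 0).and (ev_ne hGd hz2 0)).exists
  set lamv : Fin (n + 1) → ℂ := fun j => f z0 a * (if j = c then 1 else 0) -
    f z0 c * (if j = a then 1 else 0) with hlamv
  have hsum : ∀ y : Fin (n + 1) → ℂ, ∑ j, lamv j * y j = f z0 a * y c - f z0 c * y a := by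
    intro y
    simp only [hlamv, sub_mul, Finset.sum_sub_distrib, mul_assoc]
    rw [← Finset.mul_sum, ← Finset.mul_sum]
    simp
  obtain ⟨v, hv, hv1, ⟨k1, hk1⟩, hvF⟩ := rational_curve f hf lamv z0 (by
    have h1 : (fun z => ∑ j, lamv j * f z j) = fun z => f z0 a * f z c - f z0 c * f z a :=
      funext fun z => hsum (f z)
    rw [h1]
    have h2 := (((hfj c) z0).hasDerivAt.const_mul (f z0 a)).sub
      (((hfj a) z0).hasDerivAt.const_mul (f z0 c))
    have h3 : deriv (fun z => f z0 a * f z c - f z0 c * f z a) z0 =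
        f z0 a * deriv (fun z => f z c) z0 - f z0 c * deriv (fun z => f z a) z0 := h2.deriv
    rw [h3]
    exact hz0)
  rw [hsum, hsum, hv1, mul_comm (f z0 c) (f z0 a), sub_self] at hk1
  -- descend
  let _ := σ.toAlgebra
  let FK : ι → MvPolynomial (Fin (n + 1)) K := fun i => map (algebraMap (𝓞 K) K) (F i)
  have hmap : ∀ (M : Type) [Field M] [Algebra K M] (y : Fin (n + 1) → M)
      (p : MvPolynomial (Fin (n + 1)) (𝓞 K)), aeval y (map (algebraMap (𝓞 K) K) p)
        = eval₂ ((algebraMap K M).comp (algebraMap (𝓞 K) K)) y p := by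
    intro M _ _ y p
    rw [aeval_def, eval₂_map]
  obtain ⟨L, _, _, hNF, -, v', hv', hv'F, hv'W⟩ := descend FK
    (rename Sum.inl (map (algebraMap (𝓞 K) K) (G i')) *
      (X (Sum.inr c) * X (Sum.inl a) - X (Sum.inr a) * X (Sum.inl c))) v hv
    (fun i t ht => by
      rw [hmap ℂ]
      change eval₂ φ (v t) (F i) = 0
      rw [eval₂_eq_eval_map]
      apply hvF _ _ t ht
      intro z
      rw [← eval₂_eq_eval_map]
      exact hfF z i) k1 (by
    rw [map_mul, aeval_rename, map_sub, map_mul, map_mul, aeval_X, aeval_X, aeval_X, aeval_X]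
    simp only [Sum.elim_comp_inl, Sum.elim_inr, Sum.elim_inl]
    rw [hmap ℂ, hv1]
    refine mul_ne_zero hz0G ?_
    intro hcon
    apply hk1
    linear_combination hcon)
  rw [map_mul, aeval_rename, map_sub, map_mul, map_mul, aeval_X, aeval_X, aeval_X, aeval_X] at hv'W
  simp only [Sum.elim_comp_inl, Sum.elim_inr, Sum.elim_inl] at hv'W
  refine ⟨L, inferInstance, hNF, inferInstance, v', hv', fun i t ht => ?_, ⟨i', ?_⟩, k1, c, a, ?_⟩
  · rw [← hmap L]
    exact hv'F i t ht
  · rw [← hmap L]
    exact left_ne_zero_of_mul hv'W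
  · exact sub_ne_zero.mp (right_ne_zero_of_mul hv'W)

end Pool.Agent.W235.PR
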